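import Pool.Agent.Helper97.UDP.Par
import Pool.Agent.Helper53.Flip.SubSum
import Pool.Agent.Helper44.Flip.Red
import Pool.Agent.Helper69.TM.Equiv

/-!
# PARTITION is NP-hard
-/

set_option autoImplicit false

namespace Pool.Agent.Helper97.UDP

open Pool.Agent.Helper20.Flip Pool.Agent.Helper96

namespace Partition

theorem sum_iff (l : List (List Bool)) : ∀ t : ℕ,
    (∃ s : List (List Bool), s.Sublist l ∧ (s.map val).sum = t) ↔
      ∃ f : ℕ → Bool, ∑ i ∈ Finset.range l.length, (if f i then val (l.getD i []) else 0) = t := by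
  induction l with
  | nil =>
    intro t
    constructor
    · rintro ⟨s, hs, rfl⟩
      rw [List.sublist_nil.1 hs]
      exact ⟨fun _ => false, by simp⟩
    · rintro ⟨f, rfl⟩
      exact ⟨[], List.Sublist.refl _, by simp⟩
  | cons a l ih =>
    intro t
    constructor
    · rintro ⟨s, hs, rfl⟩
      cases hs with
      | cons _ hs =>
        obtain ⟨f, hf⟩ := (ih _).1 ⟨s, hs, rfl⟩
        refine ⟨fun i => if i = 0 then false else f (i - 1), ?_⟩
        rw [List.length_cons, Finset.sum_range_succ']
        simpa using hf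
      | @cons_cons s _ _ hs =>
        obtain ⟨f, hf⟩ := (ih _).1 ⟨s, hs, rfl⟩
        refine ⟨fun i => if i = 0 then true else f (i - 1), ?_⟩
        rw [List.length_cons, Finset.sum_range_succ']
        simp only [List.map_cons, List.sum_cons]
        rw [← hf]
        simp [add_comm]
    · rintro ⟨f, rfl⟩
      obtain ⟨s, hs, hs'⟩ := (ih (∑ i ∈ Finset.range l.length,
        (if f (i + 1) then val (l.getD i []) else 0))).2 ⟨fun i => f (i + 1), rfl⟩
      rw [List.length_cons, Finset.sum_range_succ']
      by_cases h0 : f 0 = true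
      · refine ⟨a :: s, hs.cons_cons a, ?_⟩
        simp only [List.map_cons, List.sum_cons, hs']
        simp [h0, add_comm]
      · refine ⟨s, hs.cons a, ?_⟩
        rw [hs']
        simp [h0]

theorem sum_getD (l : List (List Bool)) :
    ∑ i ∈ Finset.range l.length, val (l.getD i []) = (l.map val).sum := by
  induction l with
  | nil => simp
  | cons a l ih =>
    rw [List.length_cons, Finset.sum_range_succ']
    simp only [List.getD_cons_succ, List.getD_cons_zero, List.map_cons, List.sum_cons]
    rw [ih, add_comm]

/-- the combinatorial core -/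
theorem core (n : ℕ) (a : ℕ → ℕ) (S T : ℕ) (hS : ∑ i ∈ Finset.range n, a i = S) :
    (∃ f : ℕ → Bool, ∑ i ∈ Finset.range n, (if f i then a i else 0) = T) ↔
      ∃ ε : ℕ → ℤ, (∀ j, ε j = 1 ∨ ε j = -1) ∧
        ∑ j ∈ Finset.range n, ε j * (a j : ℤ) + ε n * ((S + 1 : ℕ) : ℤ) +
          ε (n + 1) * ((2 * T + 1 : ℕ) : ℤ) = 0 := by
  have hSZ : ∑ i ∈ Finset.range n, (a i : ℤ) = S := by rw [← hS]; push_cast; rfl
  constructor
  · rintro ⟨f, hf⟩
    refine ⟨fun j => if j = n then 1 else if j = n + 1 then -1 else if f j then 1 else -1, ?_, ?_⟩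
    · intro j
      dsimp only
      split_ifs <;> simp
    · have h1 : ∑ j ∈ Finset.range n, (if j = n then (1 : ℤ) else if j = n + 1 then -1 else
          if f j then 1 else -1) * (a j : ℤ) = 2 * T - S := by
        have h2 : ∀ j ∈ Finset.range n, (if j = n then (1 : ℤ) else if j = n + 1 then -1 else
            if f j then 1 else -1) * (a j : ℤ) =
            2 * ((if f j then a j else 0 : ℕ) : ℤ) - (a j : ℤ) := by
          intro j hj
          have hj' := Finset.mem_range.1 hj
          rw [if_neg (by omega), if_neg (by omega)]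
          split_ifs <;> push_cast <;> ring
        rw [Finset.sum_congr rfl h2, Finset.sum_sub_distrib, ← Finset.mul_sum, hSZ, ← hf]
        push_cast
        rfl
      simp only [h1, if_true]
      rw [if_neg (by omega)]
      push_cast
      ring
  · rintro ⟨ε, hε, hsum⟩
    -- the bound of the sum
    have hb : |∑ j ∈ Finset.range n, ε j * (a j : ℤ)| ≤ S := by
      refine (Finset.abs_sum_le_sum_abs _ _).trans ?_
      rw [← hSZ]
      refine Finset.sum_le_sum fun j _ => ?_
      rw [abs_mul]
      have : |ε j| = 1 := by rcases hε j with h | h <;> rw [h] <;> simp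
      rw [this, one_mul, abs_of_nonneg (by positivity)]
    have hb' := abs_le.1 hb
    have hopp : ε (n + 1) = -ε n := by
      rcases hε n with h1 | h1 <;> rcases hε (n + 1) with h2 | h2
      · exfalso
        rw [h1, h2] at hsum
        push_cast at hsum
        have h3 : (0 : ℤ) ≤ S := by positivity
        have h4 : (0 : ℤ) ≤ T := by positivity
        linarith [hb'.1]
      · rw [h1, h2]
      · rw [h1, h2]; norm_num
      · exfalso
        rw [h1, h2] at hsum
        push_cast at hsum
        have h3 : (0 : ℤ) ≤ S := by positivity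
        have h4 : (0 : ℤ) ≤ T := by positivity
        linarith [hb'.2]
    refine ⟨fun j => decide (ε j = ε n), ?_⟩
    have hsq : ε n * ε n = 1 := by rcases hε n with h | h <;> rw [h] <;> norm_num
    have h2 : ∀ j, ε n * (ε j * (a j : ℤ)) =
        2 * ((if decide (ε j = ε n) = true then a j else 0 : ℕ) : ℤ) - (a j : ℤ) := by
      intro j
      by_cases h : ε j = ε n
      · rw [if_pos (by simpa using h), h, ← mul_assoc, hsq]
        ring
      · have h3 : ε n * ε j = -1 := by
          rcases hε j with h4 | h4 <;> rcases hε n with h5 | h5 <;> rw [h4, h5] at h ⊢ <;>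
            simp at h ⊢
        rw [if_neg (by simpa using h), ← mul_assoc, h3]
        push_cast
        ring
    have h3 : ε n * ∑ j ∈ Finset.range n, ε j * (a j : ℤ) =
        2 * ((∑ j ∈ Finset.range n, if decide (ε j = ε n) = true then a j else 0 : ℕ) : ℤ) - S := by
      rw [Finset.mul_sum, Finset.sum_congr rfl fun j _ => h2 j, Finset.sum_sub_distrib,
        ← Finset.mul_sum, hSZ]
      push_cast
      rfl
    have h4 : ε n * ∑ j ∈ Finset.range n, ε j * (a j : ℤ) = 2 * T - S := by
      have h5 : ∑ j ∈ Finset.range n, ε j * (a j : ℤ) =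
          ε n * (2 * T + 1) - ε n * (S + 1) := by
        rw [hopp] at hsum
        push_cast at hsum
        linarith
      rw [h5]
      have : ε n * (ε n * (2 * (T : ℤ) + 1) - ε n * (S + 1)) =
          (ε n * ε n) * (2 * T - S) := by ring
      rw [this, hsq, one_mul]
    have h6 : ((∑ j ∈ Finset.range n, if decide (ε j = ε n) = true then a j else 0 : ℕ) : ℤ) =
        T := by linarith
    exact_mod_cast h6

end Partition

open RedAux in
/-- PARTITION is NP-hard -/
theorem partition_hard {L : Set (List Bool)} (hL : InNP L) :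
    ∃ f : List Bool → List (List Bool), Poly f ∧ (∀ w, f w ≠ []) ∧
      ∀ w, w ∈ L ↔ ∃ ε : ℕ → ℤ, (∀ j, ε j = 1 ∨ ε j = -1) ∧
        ∑ j ∈ Finset.range (f w).length, ε j * (val ((f w).getD j []) : ℤ) = 0 := by
  obtain ⟨g, hg, -, hcorr⟩ := subsetSum_hard hL
  refine ⟨fun w => (g w).1 ++ [addB (sumB (g w).1) [true], true :: (g w).2], ?_, ?_, ?_⟩
  · have h1 : Poly (fun w => (g w).1) := Poly.fst hg
    have h2 : Poly (fun w => (g w).2) := Poly.snd hg
    have h3 : Poly (fun w => sumB (g w).1) := poly_sumB h1
    have h4 : Poly (fun w => addB (sumB (g w).1) [true]) := poly_addB h3 (by fun_prop)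
    fun_prop
  · intro w
    simp
  · intro w
    rw [hcorr w, Partition.sum_iff]
    set l := (g w).1 with hl
    set x := addB (sumB (g w).1) [true] with hx
    set y : List Bool := true :: (g w).2 with hy
    have hvx : val x = (l.map val).sum + 1 := by
      rw [hx, val_addB, val_sumB]
      rfl
    have hvy : val y = 2 * val (g w).2 + 1 := by
      rw [hy, val]
      simp
      ring
    have h0 := Partition.core l.length (fun i => val (l.getD i [])) (l.map val).sum (val (g w).2)
      (Partition.sum_getD l)
    rw [h0]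
    have h1 : ∀ ε : ℕ → ℤ, ∑ j ∈ Finset.range (l ++ [x, y]).length,
        ε j * (val ((l ++ [x, y]).getD j []) : ℤ) =
        ∑ j ∈ Finset.range l.length, ε j * ((val (l.getD j []) : ℕ) : ℤ) +
          ε l.length * (((l.map val).sum + 1 : ℕ) : ℤ) +
          ε (l.length + 1) * ((2 * val (g w).2 + 1 : ℕ) : ℤ) := by
      intro ε
      have h2 : (l ++ [x, y]).length = l.length + 1 + 1 := by simp
      rw [h2, Finset.sum_range_succ, Finset.sum_range_succ]
      congr 1
      · congr 1
        · refine Finset.sum_congr rfl fun j hj => ?_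
          rw [List.getD_append _ _ _ _ (Finset.mem_range.1 hj)]
        · rw [List.getD_append_right _ _ _ _ (le_refl _), Nat.sub_self, List.getD_cons_zero, hvx]
      · rw [List.getD_append_right _ _ _ _ (Nat.le_succ _)]
        have h3 : l.length + 1 - l.length = 1 := by omega
        rw [Nat.succ_eq_add_one, h3, List.getD_cons_succ, List.getD_cons_zero, hvy]
    constructor
    · rintro ⟨ε, hε, h2⟩
      exact ⟨ε, hε, by rw [h1]; exact h2⟩
    · rintro ⟨ε, hε, h2⟩
      exact ⟨ε, hε, by rw [h1] at h2; exact h2⟩

end Pool.Agent.Helper97.UDP
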